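import Pool.Agent.N582.CNRed2

/-!
# Recognising graphs whose core equals the nucleus is NP-hard and coNP-hard

`core(G)` is the intersection of all maximum independent sets of `G`, and `nucleus(G)` the
intersection of all maximum critical independent sets.  The input is a finite simple graph, encoded
by its adjacency matrix.

Both reductions start from the independent set problem, for graphs `G` with `3 j` vertices and
independence number at most `j`.  They produce the complete join of two graphs `P` and `Q`, each of
which has more vertices than the independence number of the other one.  Then every nonempty
independent set has more neighbours than elements, so that the nucleus is empty, and the maximum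
independent sets lie in `P` or in `Q`.

For NP-hardness `P` consists of two adjacent copies of every vertex of `G` plus an isolated vertex
(twins), so that no vertex is in all the maximum independent sets of `P`, and `Q` consists of `j`
isolated vertices and a clique.  For coNP-hardness `P` is `G` with an isolated vertex, and `Q`
consists of `j` triangles.
-/

set_option autoImplicit false

namespace Pool.Agent.Results.MP_54ee58_lc.NPHardCoNPHard

open Pool.Agent.NPC Pool.Agent.N582.CN

/-- **It is NP-hard and coNP-hard (under polynomial-time many-one reductions) to decide whether
`core(G) = nucleus(G)` for a given finite simple graph `G`.** -/
theorem result : NPHardP CoreEqNucleus ∧ CoNPHardP CoreEqNucleus := ⟨npHard, coNPHard⟩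

end Pool.Agent.Results.MP_54ee58_lc.NPHardCoNPHard
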